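import Mathlib

set_option autoImplicit false

open Filter Topology Finset

namespace Pool.Agent.Results.MP_840660_pr.NonUnique

/-- Nearest neighbours in `ℤ^d`: `‖x - y‖ = 1`. -/
def Adj {d : ℕ} (x y : Fin d → ℤ) : Prop := ∑ i, |x i - y i| = 1

instance {d : ℕ} (x y : Fin d → ℤ) : Decidable (Adj x y) := by unfold Adj; infer_instance

/-- The matrix `F = F^{β,γ}` on `ℤ^d × ℤ^d`. -/
noncomputable def F (β γ : ℝ) {d : ℕ} (x y : Fin d → ℤ) : ℝ :=
  if x = y then -β else if Adj x y then γ / (2 * d) else 0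

/-- The quadratic form `⟨f, F f⟩ = ∑_{x,y} f(x) F(x,y) f(y)`. -/
noncomputable def form (β γ : ℝ) {d : ℕ} (f : (Fin d → ℤ) → ℝ) : ℝ :=
  ∑' p : (Fin d → ℤ) × (Fin d → ℤ), f p.1 * F β γ p.1 p.2 * f p.2

/-- `w_0, …, w_n` is an `n`-step nearest neighbour path (the values of `w` beyond `n` play no
role). -/
def IsPath {d : ℕ} (n : ℕ) (w : ℕ → Fin d → ℤ) : Prop := ∀ i < n, Adj (w i) (w (i + 1))

/-- Local time `ℓ_n(x) = #{0 ≤ i ≤ n : w_i = x}`. -/
def localTime {d : ℕ} (n : ℕ) (w : ℕ → Fin d → ℤ) (x : Fin d → ℤ) : ℕ :=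
  #{i ∈ Finset.range (n + 1) | w i = x}

/-- Endpoint-corrected local time `ℓ_n - (1/2) 1_{w_0} - (1/2) 1_{w_n}`. -/
noncomputable def correctedLocalTime {d : ℕ} (n : ℕ) (w : ℕ → Fin d → ℤ) (x : Fin d → ℤ) : ℝ :=
  (localTime n w x : ℝ) - (if w 0 = x then 1 / 2 else 0) - (if w n = x then 1 / 2 else 0)

/-- The set `𝓕` of probability measures on `ℤ^d` that are pointwise limits of normalised
endpoint-corrected local times of `n_k`-step paths with `n_k → ∞`. -/
def admissible (d : ℕ) : Set ((Fin d → ℤ) → ℝ) :=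
  {f | (∀ x, 0 ≤ f x) ∧ HasSum f 1 ∧
    ∃ (n : ℕ → ℕ) (w : ℕ → ℕ → Fin d → ℤ), Tendsto n atTop atTop ∧
      (∀ k, IsPath (n k) (w k)) ∧
      ∀ x, Tendsto (fun k => correctedLocalTime (n k) (w k) x / (n k : ℝ)) atTop (𝓝 (f x))}

/-- `f` is a maximiser of `⟨f, F f⟩` over `𝓕`. -/
def IsMaximiser (β γ : ℝ) {d : ℕ} (f : (Fin d → ℤ) → ℝ) : Prop :=
  f ∈ admissible d ∧ ∀ g ∈ admissible d, form β γ g ≤ form β γ f

/-- A lattice isometry `φ(x) = σ(x) + z`, with `σ` a signed permutation of the coordinates. -/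
def IsLatticeIsometry {d : ℕ} (φ : (Fin d → ℤ) → (Fin d → ℤ)) : Prop :=
  ∃ (π : Equiv.Perm (Fin d)) (s : Fin d → ℤ) (z : Fin d → ℤ),
    (∀ i, s i = 1 ∨ s i = -1) ∧ ∀ x i, φ x i = s i * x (π i) + z i

/-- Two functions are equivalent if one is the other composed with a lattice isometry. -/
def Equivalent {d : ℕ} (f f' : (Fin d → ℤ) → ℝ) : Prop :=
  ∃ φ : (Fin d → ℤ) → (Fin d → ℤ), IsLatticeIsometry φ ∧ f' = f ∘ φ

/-! ### A weighted Motzkin–Straus bound -/

/-- weighted Motzkin–Straus bound. -/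
lemma motzkin {ι : Type*} [Fintype ι] [DecidableEq ι] (k : ι → ι → ℤ)
    (hsym : ∀ i j, k i j = k j i) (hdiag : ∀ i, k i i = 0) (h0 : ∀ i j, 0 ≤ k i j)
    (h2 : ∀ i j, k i j ≤ 2) (hC : ∀ i j j', k i j = 2 → k i j' = 2 → k j j' = 0)
    (m : ℕ) : ∀ (S : Finset ι), S.card ≤ m → ∀ g : ι → ℝ, (∀ i, 0 ≤ g i) →
      (∀ i, i ∉ S → g i = 0) → ∑ i, g i = 1 → ∑ i, ∑ j, g i * (k i j : ℝ) * g j ≤ 1 := by
  induction m with
  | zero =>
    intro S hS g hg hgS hsum
    have hS0 : S = ∅ := by
      apply Finset.card_eq_zero.mp; omega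
    exfalso
    have : ∑ i, g i = 0 := Finset.sum_eq_zero fun i _ => hgS i (by simp [hS0])
    linarith
  | succ m ih =>
    intro S hS g hg hgS hsum
    by_cases hcl : ∃ i ∈ S, ∃ j ∈ S, i ≠ j ∧ k i j = 0
    · -- shifting
      -- general shifting claim
      have shift : ∀ i ∈ S, ∀ j ∈ S, i ≠ j → k i j = 0 →
          (∑ l, (k j l : ℝ) * g l ≤ ∑ l, (k i l : ℝ) * g l) →
          ∑ i, ∑ j, g i * (k i j : ℝ) * g j ≤ 1 := by
        intro i hi j hj hij hk0 hle
        -- the shifted weight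
        let g' : ι → ℝ := fun l => g l + g j * ((if l = i then 1 else 0) - (if l = j then 1 else 0))
        have hg'S : ∀ l, l ∉ S.erase j → g' l = 0 := by
          intro l hl
          by_cases hlj : l = j
          · subst hlj
            simp [g', Ne.symm hij]
          · have hlS : l ∉ S := fun h => hl (Finset.mem_erase.mpr ⟨hlj, h⟩)
            have hli : l ≠ i := fun h => hlS (h ▸ hi)
            simp [g', hlj, hli, hgS l hlS]
        have hg'0 : ∀ l, 0 ≤ g' l := by
          intro l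
          by_cases hlj : l = j
          · subst hlj
            simp [g', Ne.symm hij]
          · by_cases hli : l = i
            · subst hli
              simp only [g', if_true, if_neg hlj]
              have := hg l; have := hg j; linarith
            · simp only [g', if_neg hlj, if_neg hli]
              have := hg l; linarith
        have hg'sum : ∑ l, g' l = 1 := by
          simp only [g', Finset.sum_add_distrib, ← Finset.mul_sum, Finset.sum_sub_distrib,
            Finset.sum_ite_eq', Finset.mem_univ, if_true, sub_self, mul_zero, add_zero, hsum]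
        have hcard : (S.erase j).card ≤ m := by
          rw [Finset.card_erase_of_mem hj]; omega
        have key := ih (S.erase j) hcard g' hg'0 hg'S hg'sum
        have expand : ∑ a, ∑ b, g' a * (k a b : ℝ) * g' b =
            ∑ a, ∑ b, g a * (k a b : ℝ) * g b +
              2 * g j * (∑ l, (k i l : ℝ) * g l - ∑ l, (k j l : ℝ) * g l) := by
          have e1 : ∀ a, ∑ b, (k a b : ℝ) * g' b =
              ∑ b, (k a b : ℝ) * g b + g j * ((k a i : ℝ) - (k a j : ℝ)) := by
            intro a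
            simp only [g', mul_add, Finset.sum_add_distrib]
            congr 1
            have : ∀ b, (k a b : ℝ) * (g j * ((if b = i then 1 else 0) - (if b = j then 1 else 0))) =
              (if b = i then g j * (k a b : ℝ) else 0) - (if b = j then g j * (k a b : ℝ) else 0) := by
              intro b; split_ifs <;> ring
            simp only [this, Finset.sum_sub_distrib, Finset.sum_ite_eq', Finset.mem_univ, if_true]
            ring
          have e2 : ∀ a, ∑ b, g' a * (k a b : ℝ) * g' b = g' a * (∑ b, (k a b : ℝ) * g' b) := by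
            intro a; rw [Finset.mul_sum]; exact Finset.sum_congr rfl fun b _ => by ring
          have e3 : ∀ a, ∑ b, g a * (k a b : ℝ) * g b = g a * (∑ b, (k a b : ℝ) * g b) := by
            intro a; rw [Finset.mul_sum]; exact Finset.sum_congr rfl fun b _ => by ring
          simp only [e2, e3, e1]
          have e4 : ∀ a, g' a * (∑ b, (k a b : ℝ) * g b + g j * ((k a i : ℝ) - (k a j : ℝ))) =
              g a * (∑ b, (k a b : ℝ) * g b) + g j * ((k i a : ℝ) * g a - (k j a : ℝ) * g a) +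
              ((if a = i then g j * (∑ b, (k a b : ℝ) * g b + g j * ((k a i : ℝ) - (k a j : ℝ))) else 0) -
               (if a = j then g j * (∑ b, (k a b : ℝ) * g b + g j * ((k a i : ℝ) - (k a j : ℝ))) else 0)) := by
            intro a
            simp only [g']
            rw [hsym i a, hsym j a]
            split_ifs <;> ring
          simp only [e4, Finset.sum_add_distrib, Finset.sum_sub_distrib, ← Finset.mul_sum,
            Finset.sum_ite_eq', Finset.mem_univ, if_true]
          rw [hdiag i, hdiag j, hsym j i, hk0]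
          push_cast
          ring
        have hgj := hg j
        have : 0 ≤ 2 * g j * (∑ l, (k i l : ℝ) * g l - ∑ l, (k j l : ℝ) * g l) := by
          apply mul_nonneg (by linarith)
          linarith
        rw [expand] at key
        linarith
      obtain ⟨i, hi, j, hj, hij, hk0⟩ := hcl
      rcases le_total (∑ l, (k j l : ℝ) * g l) (∑ l, (k i l : ℝ) * g l) with h | h
      · exact shift i hi j hj hij hk0 h
      · exact shift j hj i hi (Ne.symm hij) (by rw [hsym, hk0]) h
    · -- clique case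
      push Not at hcl
      -- pointwise bound
      have hb : ∀ i j, g i * (k i j : ℝ) * g j ≤
          g i * g j - (if i = j then g i ^ 2 else 0) +
            (if k i j = 2 ∧ i ∈ S ∧ j ∈ S then (g i ^ 2 + g j ^ 2) / 2 else 0) := by
        intro i j
        by_cases hiS : i ∈ S
        · by_cases hjS : j ∈ S
          · by_cases hij : i = j
            · subst hij
              rw [hdiag i]
              simp
              nlinarith [hg i]
            · have hne := hcl i hiS j hjS hij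
              have h01 := h0 i j
              have h02 := h2 i j
              have : k i j = 1 ∨ k i j = 2 := by omega
              rcases this with h | h
              · rw [h]; simp [hij]
              · rw [h]; simp [hij, hiS, hjS]
                nlinarith [sq_nonneg (g i - g j)]
          · have hj0 := hgS j hjS
            have : i ≠ j := fun h => hjS (h ▸ hiS)
            simp [hj0, this, hjS]
        · have hi0 := hgS i hiS
          simp [hi0, hiS]
      have hsum2 : ∑ i, ∑ j, g i * (k i j : ℝ) * g j ≤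
          ∑ i, ∑ j, (g i * g j - (if i = j then g i ^ 2 else 0) +
            (if k i j = 2 ∧ i ∈ S ∧ j ∈ S then (g i ^ 2 + g j ^ 2) / 2 else 0)) :=
        Finset.sum_le_sum fun i _ => Finset.sum_le_sum fun j _ => hb i j
      have e1 : ∑ i, ∑ j, g i * g j = 1 := by
        simp only [← Finset.mul_sum, hsum, mul_one]
      have e2 : ∑ i, ∑ j, (if i = j then g i ^ 2 else 0) = ∑ i, g i ^ 2 := by
        simp
      have e3 : ∑ i, ∑ j, (if k i j = 2 ∧ i ∈ S ∧ j ∈ S then (g i ^ 2 + g j ^ 2) / 2 else 0) ≤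
          ∑ i, g i ^ 2 := by
        have s1 : ∑ i, ∑ j, (if k i j = 2 ∧ i ∈ S ∧ j ∈ S then (g i ^ 2 + g j ^ 2) / 2 else 0) =
            ∑ i, ∑ j, (if k i j = 2 ∧ i ∈ S ∧ j ∈ S then g i ^ 2 else 0) := by
          have t1 : ∀ i j, (if k i j = 2 ∧ i ∈ S ∧ j ∈ S then (g i ^ 2 + g j ^ 2) / 2 else (0 : ℝ)) =
              (1 / 2) * (if k i j = 2 ∧ i ∈ S ∧ j ∈ S then g i ^ 2 else 0) +
              (1 / 2) * (if k i j = 2 ∧ i ∈ S ∧ j ∈ S then g j ^ 2 else 0) := by
            intro i j; split_ifs <;> ring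
          have t2 : ∑ i, ∑ j, (if k i j = 2 ∧ i ∈ S ∧ j ∈ S then g j ^ 2 else 0) =
              ∑ i, ∑ j, (if k i j = 2 ∧ i ∈ S ∧ j ∈ S then g i ^ 2 else 0) := by
            rw [Finset.sum_comm]
            refine Finset.sum_congr rfl fun i _ => Finset.sum_congr rfl fun j _ => ?_
            rw [hsym j i]
            congr 1
            apply propext
            tauto
          simp only [t1, Finset.sum_add_distrib, ← Finset.mul_sum]
          rw [t2]
          ring
        rw [s1]
        apply Finset.sum_le_sum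
        intro i _
        rw [← Finset.sum_filter, Finset.sum_const, nsmul_eq_mul]
        have hcard : (Finset.univ.filter (fun j => k i j = 2 ∧ i ∈ S ∧ j ∈ S)).card ≤ 1 := by
          rw [Finset.card_le_one]
          intro a ha b hb'
          simp only [Finset.mem_filter, Finset.mem_univ, true_and] at ha hb'
          by_contra hab
          exact hcl a ha.2.2 b hb'.2.2 hab (hC i a b ha.1 hb'.1)
        have hc' : ((Finset.univ.filter (fun j => k i j = 2 ∧ i ∈ S ∧ j ∈ S)).card : ℝ) ≤ 1 := by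
          exact_mod_cast hcard
        nlinarith [sq_nonneg (g i)]
      simp only [Finset.sum_add_distrib, Finset.sum_sub_distrib] at hsum2
      linarith

/-! ### Geometry of edges of `ℤ^d` -/

section Geometry

variable {d : ℕ}

/-- dot product -/
def dot (u v : Fin d → ℤ) : ℤ := ∑ i, u i * v i

lemma dot_comm (u v : Fin d → ℤ) : dot u v = dot v u := by
  unfold dot; exact Finset.sum_congr rfl fun i _ => mul_comm _ _

lemma dot_add_left (u v w : Fin d → ℤ) : dot (u + v) w = dot u w + dot v w := by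
  unfold dot
  rw [← Finset.sum_add_distrib]
  exact Finset.sum_congr rfl fun i _ => by simp [add_mul]

lemma dot_neg_left (u w : Fin d → ℤ) : dot (-u) w = - dot u w := by
  unfold dot
  rw [← Finset.sum_neg_distrib]
  exact Finset.sum_congr rfl fun i _ => by simp

lemma dot_sub_left (u v w : Fin d → ℤ) : dot (u - v) w = dot u w - dot v w := by
  rw [sub_eq_add_neg, dot_add_left, dot_neg_left]; ring

lemma dot_add_right (u v w : Fin d → ℤ) : dot w (u + v) = dot w u + dot w v := by
  rw [dot_comm, dot_add_left, dot_comm u, dot_comm v]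

lemma dot_neg_right (u w : Fin d → ℤ) : dot w (-u) = - dot w u := by
  rw [dot_comm, dot_neg_left, dot_comm]

lemma dot_sub_right (u v w : Fin d → ℤ) : dot w (u - v) = dot w u - dot w v := by
  rw [dot_comm, dot_sub_left, dot_comm u, dot_comm v]

lemma dot_self_nonneg (u : Fin d → ℤ) : 0 ≤ dot u u :=
  Finset.sum_nonneg fun i _ => mul_self_nonneg _

lemma dot_self_eq_zero {u : Fin d → ℤ} (h : dot u u = 0) : u = 0 := by
  funext i
  have := (Finset.sum_eq_zero_iff_of_nonneg (fun i _ => mul_self_nonneg (u i))).mp h i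
    (Finset.mem_univ i)
  simpa using this

lemma adj_iff (x y : Fin d → ℤ) : Adj x y ↔ dot (x - y) (x - y) = 1 := by
  unfold Adj dot
  have key : ∀ a : ℤ, |a| ≤ 1 → |a| = a * a := by
    intro a ha
    rcases abs_le.mp ha with ⟨h1, h2⟩
    have : a = -1 ∨ a = 0 ∨ a = 1 := by omega
    rcases this with h | h | h <;> simp [h]
  constructor
  · intro h
    rw [← h]
    refine Finset.sum_congr rfl fun i _ => ?_
    simp only [Pi.sub_apply]
    rw [key]
    rw [← h]
    exact Finset.single_le_sum (f := fun i => |x i - y i|) (fun i _ => abs_nonneg _)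
      (Finset.mem_univ i)
  · intro h
    rw [← h]
    refine Finset.sum_congr rfl fun i _ => ?_
    simp only [Pi.sub_apply]
    apply key
    have h1 : (x i - y i) * (x i - y i) ≤ 1 := by
      rw [← h]
      exact Finset.single_le_sum (f := fun i => (x - y) i * (x - y) i)
        (fun i _ => mul_self_nonneg _) (Finset.mem_univ i)
    rw [abs_le]
    constructor <;> nlinarith

lemma adj_symm {x y : Fin d → ℤ} (h : Adj x y) : Adj y x := by
  unfold Adj at *
  rw [← h]
  exact Finset.sum_congr rfl fun i _ => abs_sub_comm _ _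

lemma adj_comm (x y : Fin d → ℤ) : Adj x y ↔ Adj y x := ⟨adj_symm, adj_symm⟩

lemma not_adj_self (x : Fin d → ℤ) : ¬ Adj x x := by
  unfold Adj; simp

lemma dot_le_zero_of_ne {u v : Fin d → ℤ} (hu : dot u u = 1) (hv : dot v v = 1) (h : u ≠ v) :
    dot u v ≤ 0 := by
  have h1 : dot (u - v) (u - v) = 2 - 2 * dot u v := by
    rw [dot_sub_left, dot_sub_right, dot_sub_right, hu, hv, dot_comm v u]; ring
  have h2 := dot_self_nonneg (u - v)
  have h3 : dot (u - v) (u - v) ≠ 0 := fun h0 => h (sub_eq_zero.mp (dot_self_eq_zero h0))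
  omega

/-- parity of a site -/
def par (x : Fin d → ℤ) : ZMod 2 := ∑ i, (x i : ZMod 2)

lemma par_ne {x y : Fin d → ℤ} (h : Adj x y) : par x = par y + 1 := by
  rw [adj_iff] at h
  have h1 : par x - par y = 1 := by
    have h2 : ((dot (x - y) (x - y) : ℤ) : ZMod 2) = 1 := by rw [h]; simp
    rw [← h2]
    unfold par dot
    rw [← Finset.sum_sub_distrib]
    push_cast
    refine Finset.sum_congr rfl fun i _ => ?_
    simp only [Pi.sub_apply]
    push_cast
    generalize (x i : ZMod 2) = a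
    generalize (y i : ZMod 2) = b
    revert a b
    decide
  rw [← h1]; ring

lemma not_adj_of_par {x y : Fin d → ℤ} (h : par x = par y) : ¬ Adj x y := by
  intro hadj
  have := par_ne hadj
  rw [h] at this
  have h0 : (1 : ZMod 2) = 0 := by
    have h3 : par y + 1 - par y = par y - par y := by rw [← this]
    simp at h3
  exact absurd h0 (by decide)

lemma ne_of_par {x y : Fin d → ℤ} (h : par x = par y + 1) : x ≠ y := by
  rintro rfl
  have h0 : (1 : ZMod 2) = 0 := by
    have h3 : par x + 1 - par x = par x - par x := by rw [← h]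
    simp at h3
  exact absurd h0 (by decide)

/-- `M = adjacency - identity` -/
def M (x y : Fin d → ℤ) : ℤ := (if Adj x y then 1 else 0) - (if x = y then 1 else 0)

lemma M_comm (x y : Fin d → ℤ) : M x y = M y x := by
  unfold M
  simp only [adj_comm x y, eq_comm (a := x) (b := y)]

lemma M_self (x : Fin d → ℤ) : M x x = -1 := by
  unfold M; simp [not_adj_self]

lemma M_adj {x y : Fin d → ℤ} (h : Adj x y) : M x y = 1 := by
  have : x ≠ y := by rintro rfl; exact not_adj_self x h
  unfold M; simp [h, this]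

lemma M_le_one (x y : Fin d → ℤ) : M x y ≤ 1 := by
  unfold M; split_ifs <;> omega

lemma neg_one_le_M (x y : Fin d → ℤ) : -1 ≤ M x y := by
  unfold M; split_ifs <;> omega

/-- interaction of two edges `{x,y}` and `{x',y'}` -/
def kk (x y x' y' : Fin d → ℤ) : ℤ := M x x' + M x y' + M y x' + M y y'

lemma kk_swap (x y x' y' : Fin d → ℤ) : kk x y x' y' = kk x y y' x' := by
  unfold kk; ring

lemma kk_symm (x y x' y' : Fin d → ℤ) : kk x y x' y' = kk x' y' x y := by
  unfold kk
  rw [M_comm x x', M_comm x y', M_comm y x', M_comm y y']; ring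

lemma kkA {x y x' y' : Fin d → ℤ} (h : Adj x y) (h' : Adj x' y') (hp : par x = par x') :
    0 ≤ kk x y x' y' ∧ kk x y x' y' ≤ 2 ∧
      (kk x y x' y' = 2 → ∃ v : Fin d → ℤ, dot v v = 1 ∧ dot v (y - x) = 0 ∧
        x' = y + v ∧ y' = x + v) := by
  have hp1 := par_ne (adj_symm h)
  have hp2 := par_ne (adj_symm h')
  have hpy : par y = par y' := by rw [hp1, hp2, hp]
  have n1 : ¬ Adj x x' := not_adj_of_par hp
  have n2 : ¬ Adj y y' := not_adj_of_par hpy
  have n3 : y' ≠ x := ne_of_par (by rw [hp2, hp])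
  have n4 : y ≠ x' := ne_of_par (by rw [hp1, hp])
  have e1 : M x x' = - (if x = x' then 1 else 0) := by unfold M; simp [n1]
  have e2 : M y y' = - (if y = y' then 1 else 0) := by unfold M; simp [n2]
  have e3 : M x y' = (if Adj x y' then 1 else 0) := by unfold M; simp [n3.symm]
  have e4 : M y x' = (if Adj y x' then 1 else 0) := by unfold M; simp [n4]
  by_cases hx : x = x'
  · subst hx
    by_cases hy : y = y'
    · subst hy
      refine ⟨?_, ?_, ?_⟩ <;> unfold kk <;> rw [e1, e2, e3, e4] <;> simp [h, adj_symm h]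
    · refine ⟨?_, ?_, ?_⟩ <;> unfold kk <;> rw [e1, e2, e3, e4] <;> simp [h', adj_symm h, hy]
  · by_cases hy : y = y'
    · subst hy
      refine ⟨?_, ?_, ?_⟩ <;> unfold kk <;> rw [e1, e2, e3, e4] <;> simp [h, adj_symm h', hx]
    · have ek : kk x y x' y' = (if Adj x y' then 1 else 0) + (if Adj y x' then 1 else 0) := by
        unfold kk; rw [e1, e2, e3, e4]; simp [hx, hy]
      refine ⟨?_, ?_, ?_⟩
      · rw [ek]; split_ifs <;> norm_num
      · rw [ek]; split_ifs <;> norm_num
      · intro h2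
        rw [ek] at h2
        have ha : Adj x y' := by
          by_contra hc; rw [if_neg hc] at h2; split_ifs at h2 <;> omega
        have hb : Adj y x' := by
          by_contra hc; rw [if_neg hc] at h2; split_ifs at h2 <;> omega
        -- unit vectors
        have hu : dot (y - x) (y - x) = 1 := (adj_iff y x).mp (adj_symm h)
        have hv : dot (y' - x) (y' - x) = 1 := (adj_iff y' x).mp (adj_symm ha)
        have hu' : dot (x' - y) (x' - y) = 1 := (adj_iff x' y).mp (adj_symm hb)
        have hv' : dot (x' - y') (x' - y') = 1 := (adj_iff x' y').mp h'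
        -- u ≠ v
        have huv : y - x ≠ y' - x := fun hh => hy (sub_left_injective hh)
        have huv0 : dot (y - x) (y' - x) ≤ 0 := dot_le_zero_of_ne hu hv huv
        -- u + u' = v + v'
        have hsum : (y - x) + (x' - y) = (y' - x) + (x' - y') := by abel
        -- u = v'
        have huv' : y - x = x' - y' := by
          by_contra hne
          have h3 : dot (y - x) (x' - y') ≤ 0 := dot_le_zero_of_ne hu hv' hne
          have h4 : dot (y - x) ((y - x) + (x' - y)) = dot (y - x) ((y' - x) + (x' - y')) := by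
            rw [hsum]
          rw [dot_add_right, dot_add_right, hu] at h4
          have h5 : dot (y - x) (x' - y) ≤ -1 := by omega
          have h6 : dot ((y - x) + (x' - y)) ((y - x) + (x' - y)) ≤ 0 := by
            rw [dot_add_left, dot_add_right, dot_add_right, hu, hu', dot_comm (x' - y) (y - x)]
            omega
          have h7 := dot_self_nonneg ((y - x) + (x' - y))
          have h8 := dot_self_eq_zero (le_antisymm h6 h7)
          apply hx
          have h9 : x' - x = 0 := by rw [← h8]; abel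
          exact (sub_eq_zero.mp h9).symm
        refine ⟨y' - x, hv, ?_, ?_, ?_⟩
        · -- orthogonality
          have hvu : y' - x = x' - y := by
            have : x' - y = (y' - x) + (x' - y') - (y - x) := by rw [← hsum]; abel
            rw [this, ← huv']; abel
          have hne2 : y - x ≠ -(y' - x) := by
            intro hh
            apply hx
            have : x' - x = 0 := by
              have h10 : x' - x = (y - x) + (x' - y) := by abel
              rw [h10, ← hvu, hh]; abel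
            exact (sub_eq_zero.mp this).symm
          have hneg : dot (-(y' - x)) (-(y' - x)) = 1 := by
            rw [dot_neg_left, dot_neg_right]; simpa using hv
          have h11 := dot_le_zero_of_ne hu hneg hne2
          rw [dot_neg_right] at h11
          rw [dot_comm]
          omega
        · have : x' = y' + (x' - y') := by abel
          rw [this, ← huv']; abel
        · abel

lemma kk_spec {x y x' y' : Fin d → ℤ} (h : Adj x y) (h' : Adj x' y') :
    0 ≤ kk x y x' y' ∧ kk x y x' y' ≤ 2 ∧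
      (kk x y x' y' = 2 → ∃ v : Fin d → ℤ, dot v v = 1 ∧ dot v (y - x) = 0 ∧
        ((x' = y + v ∧ y' = x + v) ∨ (x' = x + v ∧ y' = y + v))) := by
  by_cases hp : par x = par x'
  · obtain ⟨h1, h2, h3⟩ := kkA h h' hp
    refine ⟨h1, h2, fun hk => ?_⟩
    obtain ⟨v, a, b, c, e⟩ := h3 hk
    exact ⟨v, a, b, Or.inl ⟨c, e⟩⟩
  · have hp' : par x = par y' := by
      have hp2 := par_ne (adj_symm h')
      rw [hp2]
      clear hp2
      generalize par x = a at *
      generalize par x' = b at *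
      revert a b
      decide
    obtain ⟨h1, h2, h3⟩ := kkA h (adj_symm h') hp'
    rw [kk_swap]
    refine ⟨h1, h2, fun hk => ?_⟩
    obtain ⟨v, a, b, c, e⟩ := h3 hk
    exact ⟨v, a, b, Or.inr ⟨e, c⟩⟩

lemma kk_self {x y : Fin d → ℤ} (h : Adj x y) : kk x y x y = 0 := by
  unfold kk
  rw [M_self, M_self, M_adj h, M_adj (adj_symm h)]; norm_num

lemma M_of_dot {x y : Fin d → ℤ} (h : dot (x - y) (x - y) ≠ 1) (h0 : dot (x - y) (x - y) ≠ 0) :
    M x y = 0 := by
  have h1 : ¬ Adj x y := fun hh => h ((adj_iff x y).mp hh)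
  have h2 : x ≠ y := by
    rintro rfl
    apply h0
    simp [dot]
  unfold M; simp [h1, h2]

/-- two edges parallel to `{x,y}` at distance one from it do not interact -/
lemma kk_translates {x y v w : Fin d → ℤ} (h : Adj x y) (hv : dot v v = 1) (hw : dot w w = 1)
    (hvo : dot v (y - x) = 0) (hwo : dot w (y - x) = 0) :
    kk (x + v) (y + v) (x + w) (y + w) = 0 := by
  by_cases hvw : v = w
  · subst hvw
    apply kk_self
    rw [adj_iff] at h ⊢
    rw [← h]
    congr 1 <;> abel
  · have hu : dot (y - x) (y - x) = 1 := (adj_iff y x).mp (adj_symm h)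
    have hle := dot_le_zero_of_ne hv hw hvw
    have q : dot (v - w) (v - w) = 2 - 2 * dot v w := by
      rw [dot_sub_left, dot_sub_right, dot_sub_right, hv, hw, dot_comm w v]; ring
    have q0 : dot (v - w) (y - x) = 0 := by rw [dot_sub_left, hvo, hwo]; ring
    have a1 : M (x + v) (x + w) = 0 := by
      have : x + v - (x + w) = v - w := by abel
      apply M_of_dot <;> rw [this, q] <;> omega
    have a2 : M (y + v) (y + w) = 0 := by
      have : y + v - (y + w) = v - w := by abel
      apply M_of_dot <;> rw [this, q] <;> omega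
    have a3 : M (x + v) (y + w) = 0 := by
      have : x + v - (y + w) = (v - w) - (y - x) := by abel
      have e : dot ((v - w) - (y - x)) ((v - w) - (y - x)) = 2 - 2 * dot v w + 1 := by
        rw [dot_sub_left (v - w) (y - x), dot_sub_right (v - w) (y - x),
          dot_sub_right (v - w) (y - x), q, q0, hu, dot_comm (y - x), q0]; ring
      apply M_of_dot <;> rw [this, e] <;> omega
    have a4 : M (y + v) (x + w) = 0 := by
      have : y + v - (x + w) = (v - w) + (y - x) := by abel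
      have e : dot ((v - w) + (y - x)) ((v - w) + (y - x)) = 2 - 2 * dot v w + 1 := by
        rw [dot_add_left, dot_add_right, dot_add_right, q, q0, hu, dot_comm (y - x), q0]; ring
      apply M_of_dot <;> rw [this, e] <;> omega
    unfold kk
    rw [a1, a2, a3, a4]; norm_num

lemma kk_cond {x y x1 y1 x2 y2 : Fin d → ℤ} (h : Adj x y) (h1 : Adj x1 y1) (h2 : Adj x2 y2)
    (k1 : kk x y x1 y1 = 2) (k2 : kk x y x2 y2 = 2) : kk x1 y1 x2 y2 = 0 := by
  obtain ⟨v, hv, hvo, hv'⟩ := (kk_spec h h1).2.2 k1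
  obtain ⟨w, hw, hwo, hw'⟩ := (kk_spec h h2).2.2 k2
  have key := kk_translates h hv hw hvo hwo
  have key' : kk (x + v) (y + v) (y + w) (x + w) = 0 := by rw [kk_swap]; exact key
  have key2 : kk (y + v) (x + v) (x + w) (y + w) = 0 := by
    rw [kk_symm, kk_swap, kk_symm]; exact key
  have key3 : kk (y + v) (x + v) (y + w) (x + w) = 0 := by
    rw [kk_swap]; exact key2
  rcases hv' with ⟨rfl, rfl⟩ | ⟨rfl, rfl⟩ <;> rcases hw' with ⟨rfl, rfl⟩ | ⟨rfl, rfl⟩
  · exact key3
  · exact key2
  · exact key'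
  · exact key

end Geometry

/-! ### The quadratic form -/

section Form

variable {d : ℕ}

lemma F_eq (hd : d ≠ 0) (β : ℝ) (x y : Fin d → ℤ) :
    F β (2 * d * β) x y = β * (M x y : ℝ) := by
  have hd' : (d : ℝ) ≠ 0 := by exact_mod_cast hd
  unfold F M
  by_cases hxy : x = y
  · subst hxy
    simp [not_adj_self]
  · by_cases ha : Adj x y
    · simp [hxy, ha]; field_simp
    · simp [hxy, ha]

lemma form_eq (hd : d ≠ 0) (β : ℝ) (f : (Fin d → ℤ) → ℝ) :
    form β (2 * d * β) f = β * ∑' p : (Fin d → ℤ) × (Fin d → ℤ), f p.1 * (M p.1 p.2 : ℝ) * f p.2 := by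
  unfold form
  rw [← tsum_mul_left]
  refine tsum_congr fun p => ?_
  rw [F_eq hd]; ring

lemma hasSum_prod {g : (Fin d → ℤ) → ℝ} (h0 : ∀ x, 0 ≤ g x) (h1 : HasSum g 1) :
    HasSum (fun p : (Fin d → ℤ) × (Fin d → ℤ) => g p.1 * g p.2) 1 := by
  have hs : Summable (fun p : (Fin d → ℤ) × (Fin d → ℤ) => g p.1 * g p.2) :=
    h1.summable.mul_of_nonneg h1.summable h0 h0
  have := h1.mul h1 hs
  simpa using this

lemma summable_form {g : (Fin d → ℤ) → ℝ} (h0 : ∀ x, 0 ≤ g x) (h1 : HasSum g 1) :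
    Summable (fun p : (Fin d → ℤ) × (Fin d → ℤ) => g p.1 * (M p.1 p.2 : ℝ) * g p.2) := by
  refine Summable.of_norm_bounded (hasSum_prod h0 h1).summable ?_
  intro p
  have a := M_le_one p.1 p.2
  have b := neg_one_le_M p.1 p.2
  have a' : (M p.1 p.2 : ℝ) ≤ 1 := by exact_mod_cast a
  have b' : (-1 : ℝ) ≤ (M p.1 p.2 : ℝ) := by exact_mod_cast b
  have hg := mul_nonneg (h0 p.1) (h0 p.2)
  rw [Real.norm_eq_abs, abs_le]
  constructor <;> nlinarith

/-- restricting the form to a finite box changes it by at most the missing mass -/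
lemma restrict_le {g : (Fin d → ℤ) → ℝ} (h0 : ∀ x, 0 ≤ g x) (h1 : HasSum g 1)
    (S : Finset (Fin d → ℤ)) :
    ∑ x ∈ S, ∑ y ∈ S, g x * (M x y : ℝ) * g y ≤
      ∑' p : (Fin d → ℤ) × (Fin d → ℤ), g p.1 * (M p.1 p.2 : ℝ) * g p.2 +
        (1 - (∑ x ∈ S, g x) ^ 2) := by
  have hs := (hasSum_prod h0 h1).add (summable_form h0 h1).hasSum
  have hle := sum_le_hasSum (S ×ˢ S) (fun p _ => by
    have b := neg_one_le_M p.1 p.2
    have b' : (-1 : ℝ) ≤ (M p.1 p.2 : ℝ) := by exact_mod_cast b
    have hg := mul_nonneg (h0 p.1) (h0 p.2)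
    nlinarith) hs
  rw [Finset.sum_add_distrib, Finset.sum_product, Finset.sum_product] at hle
  simp only at hle
  rw [← Finset.sum_mul_sum] at hle
  nlinarith

lemma le_restrict {g : (Fin d → ℤ) → ℝ} (h0 : ∀ x, 0 ≤ g x) (h1 : HasSum g 1)
    (S : Finset (Fin d → ℤ)) :
    ∑' p : (Fin d → ℤ) × (Fin d → ℤ), g p.1 * (M p.1 p.2 : ℝ) * g p.2 ≤
      ∑ x ∈ S, ∑ y ∈ S, g x * (M x y : ℝ) * g y + (1 - (∑ x ∈ S, g x) ^ 2) := by
  have hs := (hasSum_prod h0 h1).sub (summable_form h0 h1).hasSum
  have hle := sum_le_hasSum (S ×ˢ S) (fun p _ => by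
    have b := M_le_one p.1 p.2
    have b' : (M p.1 p.2 : ℝ) ≤ 1 := by exact_mod_cast b
    have hg := mul_nonneg (h0 p.1) (h0 p.2)
    nlinarith) hs
  rw [Finset.sum_sub_distrib, Finset.sum_product, Finset.sum_product] at hle
  simp only at hle
  rw [← Finset.sum_mul_sum] at hle
  nlinarith

/-- finite combination of point masses -/
noncomputable def combo {ι : Type} [Fintype ι] (c : ι → ℝ) (z : ι → Fin d → ℤ)
    (x : Fin d → ℤ) : ℝ := ∑ i, (if z i = x then c i else 0)

lemma combo_nonneg {ι : Type} [Fintype ι] {c : ι → ℝ} (hc : ∀ i, 0 ≤ c i) (z : ι → Fin d → ℤ)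
    (x : Fin d → ℤ) : 0 ≤ combo c z x :=
  Finset.sum_nonneg fun i _ => by split_ifs <;> simp [hc i]

lemma hasSum_combo {ι : Type} [Fintype ι] (c : ι → ℝ) (z : ι → Fin d → ℤ) :
    HasSum (combo c z) (∑ i, c i) := by
  unfold combo
  apply hasSum_sum
  intro i _
  have := hasSum_ite_eq (z i) (c i)
  simpa [eq_comm] using this

lemma hasSum_combo_form {ι : Type} [Fintype ι] (c : ι → ℝ) (z : ι → Fin d → ℤ) :
    HasSum (fun p : (Fin d → ℤ) × (Fin d → ℤ) => combo c z p.1 * (M p.1 p.2 : ℝ) * combo c z p.2)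
      (∑ i, ∑ j, c i * (M (z i) (z j) : ℝ) * c j) := by
  have e : (fun p : (Fin d → ℤ) × (Fin d → ℤ) =>
      combo c z p.1 * (M p.1 p.2 : ℝ) * combo c z p.2) =
      fun p => ∑ i, ∑ j, (if p = (z i, z j) then c i * (M (z i) (z j) : ℝ) * c j else 0) := by
    funext p
    unfold combo
    rw [Finset.sum_mul, Finset.sum_mul_sum]
    refine Finset.sum_congr rfl fun i _ => Finset.sum_congr rfl fun j _ => ?_
    by_cases h1 : z i = p.1
    · by_cases h2 : z j = p.2
      · have : p = (z i, z j) := by rw [h1, h2]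
        rw [if_pos h1, if_pos h2, if_pos this, h1, h2]
      · have : ¬ p = (z i, z j) := fun h => h2 (by rw [h])
        rw [if_neg h2, if_neg this, mul_zero]
    · have : ¬ p = (z i, z j) := fun h => h1 (by rw [h])
      rw [if_neg h1, if_neg this, zero_mul, zero_mul]
  rw [e]
  apply hasSum_sum
  intro i _
  apply hasSum_sum
  intro j _
  exact hasSum_ite_eq _ _

lemma corrected_eq (n : ℕ) (w : ℕ → Fin d → ℤ) (x : Fin d → ℤ) :
    correctedLocalTime n w x =
      ∑ i ∈ Finset.range n, ((if w i = x then 1 / 2 else 0) + (if w (i + 1) = x then 1 / 2 else 0) : ℝ) := by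
  unfold correctedLocalTime localTime
  have h1 : ((#{i ∈ Finset.range (n + 1) | w i = x} : ℕ) : ℝ) =
      ∑ i ∈ Finset.range (n + 1), (if w i = x then (1 / 2 : ℝ) else 0) +
      ∑ i ∈ Finset.range (n + 1), (if w i = x then (1 / 2 : ℝ) else 0) := by
    rw [← Finset.sum_add_distrib, Finset.card_filter]
    push_cast
    refine Finset.sum_congr rfl fun i _ => ?_
    split_ifs <;> norm_num
  rw [h1, Finset.sum_add_distrib]
  conv_lhs =>
    rw [Finset.sum_range_succ]
  have h2 := Finset.sum_range_succ' (fun i => (if w i = x then (1 / 2 : ℝ) else 0)) n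
  have h3 := Finset.sum_range_succ (fun i => (if w i = x then (1 / 2 : ℝ) else 0)) n
  linarith

lemma corrected_combo (n : ℕ) (w : ℕ → Fin d → ℤ) (x : Fin d → ℤ) :
    correctedLocalTime n w x / (n : ℝ) =
      combo (ι := Fin n × Fin 2) (fun _ => 1 / (2 * (n : ℝ)))
        (fun i => w (i.1 + i.2)) x := by
  rw [corrected_eq]
  unfold combo
  rw [Fintype.sum_prod_type, Finset.sum_range, Finset.sum_div]
  refine Finset.sum_congr rfl fun i _ => ?_
  rw [Fin.sum_univ_two]
  simp only [Fin.val_zero, Fin.val_one, add_zero]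
  rw [add_div]
  congr 1
  · split_ifs
    · rw [div_div]
    · simp
  · split_ifs
    · rw [div_div]
    · simp

lemma path_bound {n : ℕ} (hn : 0 < n) {w : ℕ → Fin d → ℤ} (hw : IsPath n w) :
    ∑ i : Fin n × Fin 2, ∑ j : Fin n × Fin 2, (1 / (2 * (n : ℝ))) *
      (M (w (i.1 + i.2)) (w (j.1 + j.2)) : ℝ) * (1 / (2 * (n : ℝ))) ≤ 1 / 4 := by
  have hn' : (0 : ℝ) < n := by exact_mod_cast hn
  let k : Fin n → Fin n → ℤ := fun i j => kk (w i) (w (i + 1)) (w j) (w (j + 1))
  have hadj : ∀ i : Fin n, Adj (w i) (w (i + 1)) := fun i => hw i i.2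
  have key := motzkin k (fun i j => kk_symm _ _ _ _) (fun i => kk_self (hadj i))
    (fun i j => (kk_spec (hadj i) (hadj j)).1) (fun i j => (kk_spec (hadj i) (hadj j)).2.1)
    (fun i j j' => kk_cond (hadj i) (hadj j) (hadj j')) n Finset.univ (by simp)
    (fun _ => 1 / (n : ℝ)) (fun _ => by positivity) (fun i hi => absurd (Finset.mem_univ i) hi)
    (by simp; field_simp)
  have e : ∑ i : Fin n × Fin 2, ∑ j : Fin n × Fin 2, (1 / (2 * (n : ℝ))) *
      (M (w (i.1 + i.2)) (w (j.1 + j.2)) : ℝ) * (1 / (2 * (n : ℝ))) =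
      (1 / 4) * ∑ i, ∑ j, (1 / (n : ℝ)) * (k i j : ℝ) * (1 / (n : ℝ)) := by
    rw [Fintype.sum_prod_type, Finset.mul_sum]
    refine Finset.sum_congr rfl fun i _ => ?_
    simp only [Fintype.sum_prod_type, Fin.sum_univ_two]
    rw [← Finset.sum_add_distrib, Finset.mul_sum]
    refine Finset.sum_congr rfl fun j _ => ?_
    simp only [Fin.val_zero, Fin.val_one, add_zero, k, kk]
    push_cast
    field_simp
    ring
  rw [e]
  linarith

lemma limit_bound {f : (Fin d → ℤ) → ℝ} (hf : f ∈ admissible d) :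
    ∑' p : (Fin d → ℤ) × (Fin d → ℤ), f p.1 * (M p.1 p.2 : ℝ) * f p.2 ≤ 1 / 4 := by
  obtain ⟨h0, h1, n, w, hn, hw, hlim⟩ := hf
  -- bound in terms of finite sets
  have hS : ∀ S : Finset (Fin d → ℤ),
      ∑ x ∈ S, ∑ y ∈ S, f x * (M x y : ℝ) * f y ≤ 1 / 4 + (1 - (∑ x ∈ S, f x) ^ 2) := by
    intro S
    have hL : Tendsto (fun k => ∑ x ∈ S, ∑ y ∈ S,
        (correctedLocalTime (n k) (w k) x / (n k : ℝ)) * (M x y : ℝ) *
          (correctedLocalTime (n k) (w k) y / (n k : ℝ))) atTop
        (𝓝 (∑ x ∈ S, ∑ y ∈ S, f x * (M x y : ℝ) * f y)) := by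
      refine tendsto_finsetSum _ fun x _ => tendsto_finsetSum _ fun y _ => ?_
      exact ((hlim x).mul tendsto_const_nhds).mul (hlim y)
    have hR : Tendsto (fun k => 1 / 4 + (1 - (∑ x ∈ S,
        (correctedLocalTime (n k) (w k) x / (n k : ℝ))) ^ 2)) atTop
        (𝓝 (1 / 4 + (1 - (∑ x ∈ S, f x) ^ 2))) := by
      refine tendsto_const_nhds.add (tendsto_const_nhds.sub (Tendsto.pow ?_ 2))
      exact tendsto_finsetSum _ fun x _ => hlim x
    refine le_of_tendsto_of_tendsto hL hR ?_
    filter_upwards [hn.eventually (eventually_gt_atTop 0)] with k hk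
    have hk' : (0 : ℝ) < (n k : ℝ) := by exact_mod_cast hk
    set c : Fin (n k) × Fin 2 → ℝ := fun _ => 1 / (2 * ((n k : ℕ) : ℝ)) with hc
    set z : Fin (n k) × Fin 2 → Fin d → ℤ := fun i => w k (i.1 + i.2) with hz
    have hcombo : (fun x => correctedLocalTime (n k) (w k) x / (n k : ℝ)) = combo c z := by
      funext x; exact corrected_combo (n k) (w k) x
    have hg0 : ∀ x, 0 ≤ combo c z x := fun x => combo_nonneg (fun _ => by positivity) z x
    have hg1 : HasSum (combo c z) 1 := by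
      have := hasSum_combo c z
      convert this using 1
      simp [hc]
      field_simp
    have hle := restrict_le hg0 hg1 S
    have hval : ∑' p : (Fin d → ℤ) × (Fin d → ℤ), combo c z p.1 * (M p.1 p.2 : ℝ) * combo c z p.2
        ≤ 1 / 4 := by
      rw [(hasSum_combo_form c z).tsum_eq]
      exact path_bound hk (hw k)
    have hrw : ∀ x, correctedLocalTime (n k) (w k) x / (n k : ℝ) = combo c z x :=
      fun x => congrFun hcombo x
    simp only [hrw]
    linarith
  have hfin : ∀ S : Finset (Fin d → ℤ),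
      ∑' p : (Fin d → ℤ) × (Fin d → ℤ), f p.1 * (M p.1 p.2 : ℝ) * f p.2 ≤
        1 / 4 + 2 * (1 - (∑ x ∈ S, f x) ^ 2) := by
    intro S
    have a := le_restrict h0 h1 S
    have b := hS S
    linarith
  have hlim2 : Tendsto (fun S : Finset (Fin d → ℤ) => 1 / 4 + 2 * (1 - (∑ x ∈ S, f x) ^ 2)) atTop
      (𝓝 (1 / 4 + 2 * (1 - (1 : ℝ) ^ 2))) := by
    have h1' : Tendsto (fun S : Finset (Fin d → ℤ) => ∑ x ∈ S, f x) atTop (𝓝 1) := h1
    exact tendsto_const_nhds.add (tendsto_const_nhds.mul (tendsto_const_nhds.sub (h1'.pow 2)))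
  have := ge_of_tendsto' hlim2 hfin
  linarith

end Form

/-! ### The explicit family of maximisers -/

section Family

variable {m : ℕ}

/-- the site `(j, h, 0, …, 0)` -/
def P (j h : ℤ) : Fin (m + 2) → ℤ := Fin.cons j (Fin.cons h (fun _ => 0))

lemma adj_P (j h j' h' : ℤ) :
    Adj (P (m := m) j h) (P j' h') ↔ |j - j'| + |h - h'| = 1 := by
  unfold Adj P
  rw [Fin.sum_univ_succ, Fin.sum_univ_succ]
  simp

lemma P_inj (j h j' h' : ℤ) : P (m := m) j h = P j' h' ↔ j = j' ∧ h = h' := by
  unfold P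
  rw [Fin.cons_inj, Fin.cons_inj]
  simp

lemma M_P (j h j' h' : ℤ) : M (P (m := m) j h) (P j' h') =
    (if |j - j'| + |h - h'| = 1 then 1 else 0) - (if j = j' ∧ h = h' then 1 else 0) := by
  unfold M
  simp only [adj_P, P_inj]

/-- column weights -/
noncomputable def gw (a : ℝ) : Fin 3 → ℝ := ![a, 1 / 2, 1 / 2 - a]

/-- the maximisers -/
noncomputable def Phi (a : ℝ) : (Fin (m + 2) → ℤ) → ℝ :=
  combo (ι := Fin 3 × Fin 2) (fun i => gw a i.1 / 2) (fun i => P (i.1 : ℕ) (i.2 : ℕ))

lemma Phi_value (a : ℝ) :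
    ∑' p : (Fin (m + 2) → ℤ) × (Fin (m + 2) → ℤ), Phi a p.1 * (M p.1 p.2 : ℝ) * Phi a p.2
      = 1 / 4 := by
  unfold Phi
  rw [(hasSum_combo_form _ _).tsum_eq]
  simp only [Fintype.sum_prod_type, Fin.sum_univ_three, Fin.sum_univ_two, M_P, gw]
  simp
  ring

/-- value of the pair of sites of a column -/
noncomputable def vcol (j : ℤ) (x : Fin (m + 2) → ℤ) : ℝ :=
  (if P j 0 = x then 1 / 2 else 0) + (if P j 1 = x then 1 / 2 else 0)

lemma Phi_eq (a : ℝ) (x : Fin (m + 2) → ℤ) :
    Phi a x = a * vcol 0 x + 1 / 2 * vcol 1 x + (1 / 2 - a) * vcol 2 x := by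
  unfold Phi combo vcol gw
  simp only [Fintype.sum_prod_type, Fin.sum_univ_three, Fin.sum_univ_two]
  simp
  split_ifs <;> ring

/-- column as a function of time -/
def col (A B i : ℕ) : ℕ := if i ≤ A then 0 else if i ≤ A + B then 1 else 2

/-- the path -/
def walk (A B : ℕ) (i : ℕ) : Fin (m + 2) → ℤ :=
  P (col A B i : ℕ) (((i + col A B i) % 2 : ℕ) : ℤ)

lemma walk_adj {A B : ℕ} (hB : 0 < B) (i : ℕ) :
    Adj (walk (m := m) A B i) (walk A B (i + 1)) := by
  unfold walk
  rw [adj_P]
  have hc : (col A B (i + 1) = col A B i) ∨ (col A B (i + 1) = col A B i + 1) := by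
    unfold col; split_ifs <;> omega
  rcases hc with h | h
  · rw [h]
    rcases Nat.mod_two_eq_zero_or_one (i + col A B i) with h1 | h1
    · have h2 : (i + 1 + col A B i) % 2 = 1 := by omega
      rw [h1, h2]; simp
    · have h2 : (i + 1 + col A B i) % 2 = 0 := by omega
      rw [h1, h2]; simp
  · rw [h]
    have h2 : (i + 1 + (col A B i + 1)) % 2 = (i + col A B i) % 2 := by omega
    rw [h2]; simp

/-- one step inside a column contributes exactly `vcol` -/
lemma step_contrib {A B i : ℕ} (h : col A B (i + 1) = col A B i) (x : Fin (m + 2) → ℤ) :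
    ((if walk A B i = x then 1 / 2 else 0) + (if walk A B (i + 1) = x then 1 / 2 else 0) : ℝ) =
      vcol (col A B i : ℕ) x := by
  unfold walk vcol
  rw [h]
  rcases Nat.mod_two_eq_zero_or_one (i + col A B i) with h1 | h1
  · have h2 : (i + 1 + col A B i) % 2 = 1 := by omega
    rw [h1, h2]; simp
  · have h2 : (i + 1 + col A B i) % 2 = 0 := by omega
    rw [h1, h2]; simp [add_comm]

lemma vcol_nonneg (j : ℤ) (x : Fin (m + 2) → ℤ) : 0 ≤ vcol j x := by
  unfold vcol; split_ifs <;> norm_num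

lemma vcol_le_one (j : ℤ) (x : Fin (m + 2) → ℤ) : vcol j x ≤ 1 := by
  unfold vcol; split_ifs <;> norm_num

lemma sum_walk {A B N : ℕ} (hN : A + B + 1 ≤ N) (x : Fin (m + 2) → ℤ) :
    |correctedLocalTime N (walk A B) x -
      ((N : ℝ) * vcol 2 x + ((A : ℝ) + B + 1) * (vcol 1 x - vcol 2 x) +
        ((A : ℝ) + 1) * (vcol 0 x - vcol 1 x))| ≤ 2 := by
  rw [corrected_eq]
  have h1 : ((N : ℝ) * vcol 2 x + ((A : ℝ) + B + 1) * (vcol 1 x - vcol 2 x) +
        ((A : ℝ) + 1) * (vcol 0 x - vcol 1 x)) =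
      ∑ i ∈ Finset.range N, vcol (col A B i : ℕ) x := by
    have e : ∀ i, vcol (col A B i : ℕ) x = vcol 2 x +
        (if i ∈ Finset.range (A + B + 1) then (vcol 1 x - vcol 2 x) else 0) +
        (if i ∈ Finset.range (A + 1) then (vcol 0 x - vcol 1 x) else 0) := by
      intro i
      simp only [Finset.mem_range]
      unfold col
      by_cases h1 : i ≤ A
      · have h2 : i < A + B + 1 := by omega
        have h3 : i < A + 1 := by omega
        simp [h1, h2, h3]
      · by_cases h2 : i ≤ A + B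
        · have h3 : i < A + B + 1 := by omega
          have h4 : ¬ i < A + 1 := by omega
          simp [h1, h2, h3, h4]
        · have h3 : ¬ i < A + B + 1 := by omega
          have h4 : ¬ i < A + 1 := by omega
          simp [h1, h2, h3, h4]
    simp only [e, Finset.sum_add_distrib]
    rw [Finset.sum_ite_mem, Finset.sum_ite_mem, Finset.inter_eq_right.mpr, Finset.inter_eq_right.mpr]
    · simp
      ring
    · intro i hi
      simp only [Finset.mem_range] at hi ⊢
      omega
    · intro i hi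
      simp only [Finset.mem_range] at hi ⊢
      omega
  rw [h1, ← Finset.sum_sub_distrib]
  refine le_trans (Finset.abs_sum_le_sum_abs _ _) ?_
  have hb : ∀ i ∈ Finset.range N, |((if walk A B i = x then 1 / 2 else 0) +
      (if walk A B (i + 1) = x then 1 / 2 else 0) : ℝ) - vcol (col A B i : ℕ) x| ≤
      (if i = A then 1 else 0) + (if i = A + B then 1 else 0) := by
    intro i _
    by_cases h : col A B (i + 1) = col A B i
    · rw [step_contrib h]
      simp only [sub_self, abs_zero]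
      positivity
    · have h' : i = A ∨ i = A + B := by
        unfold col at h
        by_contra hcon
        push Not at hcon
        apply h
        split_ifs <;> omega
      have h1 := vcol_nonneg (m := m) (col A B i : ℕ) x
      have h2 := vcol_le_one (m := m) (col A B i : ℕ) x
      have h3 : (0 : ℝ) ≤ ((if walk A B i = x then 1 / 2 else 0) +
          (if walk A B (i + 1) = x then 1 / 2 else 0) : ℝ) := by positivity
      have h4 : ((if walk A B i = x then 1 / 2 else 0) +
          (if walk A B (i + 1) = x then 1 / 2 else 0) : ℝ) ≤ 1 := by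
        split_ifs <;> norm_num
      have h5 : (1 : ℝ) ≤ (if i = A then 1 else 0) + (if i = A + B then 1 else 0) := by
        rcases h' with h' | h'
        · simp only [h', if_true]
          split_ifs <;> norm_num
        · simp only [h', if_true]
          split_ifs <;> norm_num
      refine le_trans ?_ h5
      rw [abs_le]
      constructor <;> linarith
  refine le_trans (Finset.sum_le_sum hb) ?_
  rw [Finset.sum_add_distrib, Finset.sum_ite_eq', Finset.sum_ite_eq']
  split_ifs <;> norm_num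

lemma Phi_mem {a : ℝ} (ha0 : 0 ≤ a) (ha : a ≤ 1 / 4) :
    Phi (m := m) a ∈ admissible (m + 2) := by
  refine ⟨?_, ?_, fun k => 2 * k + 2, fun k => walk ⌊a * ((2 * k + 2 : ℕ) : ℝ)⌋₊ (k + 1), ?_, ?_, ?_⟩
  · intro x
    rw [Phi_eq]
    have h0 := vcol_nonneg (m := m) 0 x
    have h1 := vcol_nonneg (m := m) 1 x
    have h2 := vcol_nonneg (m := m) 2 x
    have := mul_nonneg ha0 h0
    have := mul_nonneg (by linarith : (0 : ℝ) ≤ 1 / 2 - a) h2
    linarith
  · have := hasSum_combo (fun i : Fin 3 × Fin 2 => gw a i.1 / 2)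
      (fun i => P (m := m) (i.1 : ℕ) (i.2 : ℕ))
    have e : ∑ i : Fin 3 × Fin 2, gw a i.1 / 2 = 1 := by
      simp only [Fintype.sum_prod_type, Fin.sum_univ_three, Fin.sum_univ_two, gw]
      simp
      ring
    rw [e] at this
    exact this
  · exact tendsto_atTop_mono (f := fun k : ℕ => k) (g := fun k : ℕ => 2 * k + 2)
      (fun k => by omega) tendsto_id
  · intro k i _
    exact walk_adj (by omega) i
  · intro x
    -- bound on A
    have hA : ∀ k : ℕ, ⌊a * ((2 * k + 2 : ℕ) : ℝ)⌋₊ + (k + 1) + 1 ≤ 2 * k + 2 + (if k = 0 then 1 else 0) := by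
      intro k
      have h1 : (⌊a * ((2 * k + 2 : ℕ) : ℝ)⌋₊ : ℝ) ≤ a * ((2 * k + 2 : ℕ) : ℝ) :=
        Nat.floor_le (by positivity)
      have h2 : (⌊a * ((2 * k + 2 : ℕ) : ℝ)⌋₊ : ℝ) ≤ (k + 1 : ℝ) / 2 := by
        refine h1.trans ?_
        push_cast
        nlinarith
      have h3 : 2 * ⌊a * ((2 * k + 2 : ℕ) : ℝ)⌋₊ ≤ k + 1 := by
        have h4 : (2 : ℝ) * (⌊a * ((2 * k + 2 : ℕ) : ℝ)⌋₊ : ℝ) ≤ (k + 1 : ℝ) := by linarith
        exact_mod_cast h4
      split_ifs <;> omega
    have hNtop : Tendsto (fun k : ℕ => ((2 * k + 2 : ℕ) : ℝ)) atTop atTop := by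
      apply tendsto_natCast_atTop_atTop.comp
      exact tendsto_atTop_mono (f := fun k : ℕ => k) (g := fun k : ℕ => 2 * k + 2)
        (fun k => by omega) tendsto_id
    have hfloor : Tendsto (fun k : ℕ => (⌊a * ((2 * k + 2 : ℕ) : ℝ)⌋₊ : ℝ) / ((2 * k + 2 : ℕ) : ℝ))
        atTop (𝓝 a) := (tendsto_nat_floor_mul_div_atTop ha0).comp hNtop
    have hinv : Tendsto (fun k : ℕ => (1 : ℝ) / ((2 * k + 2 : ℕ) : ℝ)) atTop (𝓝 0) :=
      tendsto_const_nhds.div_atTop hNtop
    -- main term
    have hmain : Tendsto (fun k : ℕ =>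
        vcol 2 x + ((⌊a * ((2 * k + 2 : ℕ) : ℝ)⌋₊ : ℝ) / ((2 * k + 2 : ℕ) : ℝ) + 1 / 2 +
          1 / ((2 * k + 2 : ℕ) : ℝ)) * (vcol 1 x - vcol 2 x) +
        ((⌊a * ((2 * k + 2 : ℕ) : ℝ)⌋₊ : ℝ) / ((2 * k + 2 : ℕ) : ℝ) +
          1 / ((2 * k + 2 : ℕ) : ℝ)) * (vcol 0 x - vcol 1 x)) atTop
        (𝓝 (vcol 2 x + (a + 1 / 2 + 0) * (vcol 1 x - vcol 2 x) +
          (a + 0) * (vcol 0 x - vcol 1 x))) := by
      exact (tendsto_const_nhds.add (((hfloor.add tendsto_const_nhds).add hinv).mul
        tendsto_const_nhds)).add ((hfloor.add hinv).mul tendsto_const_nhds)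
    have hval : vcol 2 x + (a + 1 / 2 + 0) * (vcol 1 x - vcol 2 x) +
          (a + 0) * (vcol 0 x - vcol 1 x) = Phi a x := by
      rw [Phi_eq]; ring
    rw [hval] at hmain
    -- error term
    have herr : Tendsto (fun k : ℕ => correctedLocalTime (2 * k + 2)
          (walk ⌊a * ((2 * k + 2 : ℕ) : ℝ)⌋₊ (k + 1)) x / ((2 * k + 2 : ℕ) : ℝ) -
        (vcol 2 x + ((⌊a * ((2 * k + 2 : ℕ) : ℝ)⌋₊ : ℝ) / ((2 * k + 2 : ℕ) : ℝ) + 1 / 2 +
          1 / ((2 * k + 2 : ℕ) : ℝ)) * (vcol 1 x - vcol 2 x) +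
        ((⌊a * ((2 * k + 2 : ℕ) : ℝ)⌋₊ : ℝ) / ((2 * k + 2 : ℕ) : ℝ) +
          1 / ((2 * k + 2 : ℕ) : ℝ)) * (vcol 0 x - vcol 1 x))) atTop (𝓝 0) := by
      refine squeeze_zero_norm' (a := fun k : ℕ => 2 * (1 / ((2 * k + 2 : ℕ) : ℝ))) ?_ ?_
      · filter_upwards [eventually_ge_atTop 1] with k hk
        have hk0 : k ≠ 0 := by omega
        have hN := hA k
        rw [if_neg hk0, add_zero] at hN
        have key := sum_walk (m := m) hN x
        have hpos : (0 : ℝ) < ((2 * k + 2 : ℕ) : ℝ) := by positivity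
        have e : correctedLocalTime (2 * k + 2)
            (walk ⌊a * ((2 * k + 2 : ℕ) : ℝ)⌋₊ (k + 1)) x / ((2 * k + 2 : ℕ) : ℝ) -
          (vcol 2 x + ((⌊a * ((2 * k + 2 : ℕ) : ℝ)⌋₊ : ℝ) / ((2 * k + 2 : ℕ) : ℝ) + 1 / 2 +
            1 / ((2 * k + 2 : ℕ) : ℝ)) * (vcol 1 x - vcol 2 x) +
          ((⌊a * ((2 * k + 2 : ℕ) : ℝ)⌋₊ : ℝ) / ((2 * k + 2 : ℕ) : ℝ) +
            1 / ((2 * k + 2 : ℕ) : ℝ)) * (vcol 0 x - vcol 1 x)) =
          (correctedLocalTime (2 * k + 2)
            (walk ⌊a * ((2 * k + 2 : ℕ) : ℝ)⌋₊ (k + 1)) x -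
            (((2 * k + 2 : ℕ) : ℝ) * vcol 2 x + ((⌊a * ((2 * k + 2 : ℕ) : ℝ)⌋₊ : ℝ) +
              ((k + 1 : ℕ) : ℝ) + 1) * (vcol 1 x - vcol 2 x) +
              ((⌊a * ((2 * k + 2 : ℕ) : ℝ)⌋₊ : ℝ) + 1) * (vcol 0 x - vcol 1 x))) *
            (1 / ((2 * k + 2 : ℕ) : ℝ)) := by
          field_simp
          push_cast
          ring
        rw [e, Real.norm_eq_abs, abs_mul, abs_of_pos (by positivity : (0 : ℝ) < 1 / ((2 * k + 2 : ℕ) : ℝ))]
        exact mul_le_mul_of_nonneg_right key (by positivity)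
      · have := hinv.const_mul 2
        simpa using this
    have := herr.add hmain
    simpa using this

lemma Phi_val (a : ℝ) (j : Fin 3) (b : Fin 2) :
    Phi (m := m) a (P (j : ℕ) (b : ℕ)) = gw a j / 2 := by
  unfold Phi combo
  rw [Finset.sum_eq_single (j, b)]
  · simp
  · intro i _ hi
    rw [if_neg]
    rw [P_inj]
    rintro ⟨h1, h2⟩
    apply hi
    ext
    · exact_mod_cast h1
    · exact_mod_cast h2
  · intro h; exact absurd (Finset.mem_univ _) h

lemma Phi_range (a : ℝ) (x : Fin (m + 2) → ℤ) :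
    Phi (m := m) a x = 0 ∨ Phi (m := m) a x = a / 2 ∨ Phi (m := m) a x = 1 / 4 ∨
      Phi (m := m) a x = (1 / 2 - a) / 2 := by
  by_cases h : ∃ i : Fin 3 × Fin 2, P (m := m) (i.1 : ℕ) (i.2 : ℕ) = x
  · obtain ⟨i, hi⟩ := h
    rw [← hi, Phi_val]
    obtain ⟨j, b⟩ := i
    fin_cases j
    · right; left; simp [gw]
    · right; right; left; simp [gw]; norm_num
    · right; right; right; simp [gw]
  · left
    push Not at h
    unfold Phi combo
    apply Finset.sum_eq_zero
    intro i _
    rw [if_neg (h i)]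

lemma isometry_surj {d : ℕ} {φ : (Fin d → ℤ) → (Fin d → ℤ)} (h : IsLatticeIsometry φ) :
    Function.Surjective φ := by
  obtain ⟨π, s, z, hs, hφ⟩ := h
  intro y
  refine ⟨fun j => s (π.symm j) * (y (π.symm j) - z (π.symm j)), ?_⟩
  funext i
  rw [hφ]
  simp only [Equiv.symm_apply_apply]
  rcases hs i with h | h <;> rw [h] <;> ring

lemma Phi_not_equiv {a a' : ℝ} (ha : a ∈ Set.Icc (0 : ℝ) (1 / 4)) (ha' : a' ∈ Set.Icc (0 : ℝ) (1 / 4))
    (hlt : a < a') : ¬ ∃ φ : (Fin (m + 2) → ℤ) → (Fin (m + 2) → ℤ), Function.Surjective φ ∧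
      Phi (m := m) a' = Phi a ∘ φ := by
  rintro ⟨φ, hφ, heq⟩
  have h1 : Phi (m := m) a' (P ((0 : Fin 3) : ℕ) ((0 : Fin 2) : ℕ)) = a' / 2 := by
    rw [Phi_val]; simp [gw]
  rw [heq, Function.comp] at h1
  obtain ⟨ha0, ha1⟩ := ha
  obtain ⟨ha0', ha1'⟩ := ha'
  rcases Phi_range a (φ (P ((0 : Fin 3) : ℕ) ((0 : Fin 2) : ℕ))) with h | h | h | h <;>
    rw [h] at h1 <;> linarith

lemma Phi_not_equiv' {a a' : ℝ} (ha : a ∈ Set.Icc (0 : ℝ) (1 / 4)) (ha' : a' ∈ Set.Icc (0 : ℝ) (1 / 4))
    (hlt : a < a') : ¬ ∃ φ : (Fin (m + 2) → ℤ) → (Fin (m + 2) → ℤ), Function.Surjective φ ∧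
      Phi (m := m) a = Phi a' ∘ φ := by
  rintro ⟨φ, hφ, heq⟩
  obtain ⟨x, hx⟩ := hφ (P ((0 : Fin 3) : ℕ) ((0 : Fin 2) : ℕ))
  have h1 : Phi (m := m) a' (φ x) = a' / 2 := by
    rw [hx, Phi_val]; simp [gw]
  have h2 : Phi (m := m) a x = a' / 2 := by rw [heq]; exact h1
  obtain ⟨ha0, ha1⟩ := ha
  obtain ⟨ha0', ha1'⟩ := ha'
  rcases Phi_range a x with h | h | h | h <;>
    rw [h] at h2 <;> linarith

end Family

/-- **Non-uniqueness.**  For every dimension `d ≥ 2` and every `β > 0`, at `γ = 2dβ` (so that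
`0 < β < γ`) the maximum of `⟨f, F f⟩` over `𝓕` equals `β/4` and there is a continuum of pairwise
inequivalent maximisers. -/
theorem result (d : ℕ) (hd : 2 ≤ d) (β γ : ℝ) (hβ : 0 < β) (hγ : γ = 2 * d * β) :
    β < γ ∧ ∃ Φ : ℝ → ((Fin d → ℤ) → ℝ),
      (∀ a ∈ Set.Icc (0 : ℝ) (1 / 4), IsMaximiser β γ (Φ a) ∧ form β γ (Φ a) = β / 4) ∧
      ∀ a ∈ Set.Icc (0 : ℝ) (1 / 4), ∀ a' ∈ Set.Icc (0 : ℝ) (1 / 4), a ≠ a' →
        ¬ Equivalent (Φ a) (Φ a') := by
  subst hγ
  obtain ⟨m, rfl⟩ : ∃ m, d = m + 2 := ⟨d - 2, by omega⟩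
  refine ⟨?_, Phi, ?_, ?_⟩
  · have hm : (0 : ℝ) ≤ (m : ℝ) := Nat.cast_nonneg m
    push_cast
    nlinarith
  · intro a ha
    have hval : form β (2 * ((m + 2 : ℕ) : ℝ) * β) (Phi (m := m) a) = β / 4 := by
      rw [form_eq (by omega), Phi_value]; ring
    refine ⟨⟨Phi_mem ha.1 ha.2, ?_⟩, hval⟩
    intro g hg
    rw [hval, form_eq (by omega)]
    have := limit_bound hg
    nlinarith
  · intro a ha a' ha' hne hequiv
    obtain ⟨φ, hφ, heq⟩ := hequiv
    rcases lt_or_gt_of_ne hne with h | h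
    · exact Phi_not_equiv ha ha' h ⟨φ, isometry_surj hφ, heq⟩
    · exact Phi_not_equiv' ha' ha h ⟨φ, isometry_surj hφ, heq⟩

end Pool.Agent.Results.MP_840660_pr.NonUnique
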